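import Pool.Agent.Helper85.ETH.Num

/-!
# ETH (A2)(i): collisions of the hash functions
-/

set_option autoImplicit false

namespace Pool.Agent.Helper85.ETH.Hash

open Pool.Agent.Helper50.ETH

/-- Two different assignments have the same hash value for less than `κ` hash functions. -/
theorem hash_coll (n a b : ℕ) (ha : a < 2 ^ gg n) (hb : b < 2 ^ gg n) (hab : a ≠ b)
    (P : Finset ℕ) (hP : ∀ i ∈ P, i < mm n ∧ hash n i a = hash n i b) : P.card ≤ kap n - 1 :=
  Pool.Agent.Helper85.ETH.hash_coll ha hb hab P hP

end Pool.Agent.Helper85.ETH.Hash
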