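import Mathlib
import Pool.Agent.Helper50.ETH.Defs

/-!
# ETH: numeric facts of the reduction

Parameters, digits, blocks, vertices and collisions of the hash functions of
`Pool.Agent.Helper50.ETH`.
-/

set_option autoImplicit false

namespace Pool.Agent.Helper85.ETH

open Pool.Agent.Helper36.PT Pool.Agent.Helper50.ETH

/-! ### Digits -/

/-- Every vector of digits is the vector of digits of a number. -/
theorem exists_num (B : ℕ) (D : ℕ) (f : ℕ → ℕ) (hf : ∀ j, j < D → f j < B) :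
    ∃ h, h < B ^ D ∧ ∀ j, j < D → h / B ^ j % B = f j := by
  induction D generalizing f with
  | zero => exact ⟨0, by simp, fun j hj => absurd hj (Nat.not_lt_zero j)⟩
  | succ D ih =>
    obtain ⟨h, hh, he⟩ := ih (fun j => f (j + 1)) (fun j hj => hf (j + 1) (by omega))
    have h0 : f 0 < B := hf 0 (by omega)
    refine ⟨f 0 + B * h, ?_, ?_⟩
    · have : B * (h + 1) ≤ B * B ^ D := Nat.mul_le_mul le_rfl hh
      calc f 0 + B * h < B + B * h := by omega
        _ = B * (h + 1) := by ring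
        _ ≤ B * B ^ D := this
        _ = B ^ (D + 1) := by ring
    · intro j hj
      cases j with
      | zero => simp [Nat.mod_eq_of_lt h0]
      | succ j =>
        have e : (f 0 + B * h) / B ^ (j + 1) = h / B ^ j := by
          rw [pow_succ', ← Nat.div_div_eq_div_mul, Nat.add_mul_div_left _ _ (by omega),
            Nat.div_eq_of_lt h0, Nat.zero_add]
        rw [e]
        exact he j (by omega)

/-- A number is determined by its digits. -/
theorem num_ext (B : ℕ) (D : ℕ) {a b : ℕ} (ha : a < B ^ D) (hb : b < B ^ D)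
    (h : ∀ j, j < D → a / B ^ j % B = b / B ^ j % B) : a = b := by
  induction D generalizing a b with
  | zero =>
    rw [pow_zero] at ha hb
    omega
  | succ D ih =>
    have h0 : a % B = b % B := by simpa using h 0 (by omega)
    have e : a / B = b / B := by
      refine ih ?_ ?_ ?_
      · rw [pow_succ'] at ha
        exact Nat.div_lt_of_lt_mul ha
      · rw [pow_succ'] at hb
        exact Nat.div_lt_of_lt_mul hb
      · intro j hj
        have := h (j + 1) (by omega)
        rw [pow_succ', ← Nat.div_div_eq_div_mul, ← Nat.div_div_eq_div_mul] at this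
        exact this
    rw [← Nat.div_add_mod a B, ← Nat.div_add_mod b B, e, h0]

/-- The low digits do not depend on the high part. -/
theorem low_digit (B w p : ℕ) {t D : ℕ} (hB : 0 < B) (ht : t < D) :
    (w + B ^ D * p) / B ^ t % B = w / B ^ t % B := by
  obtain ⟨s, rfl⟩ := Nat.exists_eq_add_of_lt ht
  have e : w + B ^ (t + s + 1) * p = w + B ^ t * (B * (B ^ s * p)) := by ring
  rw [e, Nat.add_mul_div_left _ _ (pow_pos hB t), Nat.add_mul_mod_self_left]

/-! ### Parameters -/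

theorem mu_lt {n : ℕ} {Q : ℕ → Prop} (h : ∃ i, i < n ∧ Q i) : mu n Q < n ∧ Q (mu n Q) := by
  classical
  unfold mu
  rw [dif_pos h]
  exact Nat.find_spec h

theorem k0_spec (n : ℕ) : n ≤ k0 n ^ 3 * Nat.log 2 (k0 n + 2) := by
  have h : ∃ i, i < n + 1 ∧ n ≤ i ^ 3 * Nat.log 2 (i + 2) := by
    refine ⟨n, by omega, ?_⟩
    have h1 : 0 < Nat.log 2 (n + 2) := Nat.log_pos (by norm_num) (by omega)
    calc n ≤ n ^ 3 := Nat.le_self_pow (by norm_num) n
      _ = n ^ 3 * 1 := (mul_one _).symm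
      _ ≤ n ^ 3 * Nat.log 2 (n + 2) := Nat.mul_le_mul le_rfl h1
  exact (mu_lt h).2

theorem two_le_kap (n : ℕ) : 2 ≤ kap n := Nat.le_add_left 2 (k0 n)

theorem rr_pos (n : ℕ) : 0 < rr n := Nat.log_pos (by norm_num) (two_le_kap n)

theorem gg_pos (n : ℕ) : 0 < gg n := Nat.mul_pos (by have := two_le_kap n; omega) (rr_pos n)

theorem DD_pos (n : ℕ) : 0 < DD n := pow_pos (by have := two_le_kap n; omega) 2

theorem two_pow_rr_le (n : ℕ) : 2 ^ rr n ≤ kap n :=
  Nat.pow_log_le_self 2 (by have := two_le_kap n; omega)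

theorem kap_le_DD (n : ℕ) : kap n ≤ DD n := Nat.le_self_pow (by norm_num) (kap n)

theorem DD_le_mm (n : ℕ) : DD n ≤ mm n := Nat.le_self_pow (by norm_num) (DD n)

theorem kap_le_mm (n : ℕ) : kap n ≤ mm n := (kap_le_DD n).trans (DD_le_mm n)

theorem mm_pos (n : ℕ) : 0 < mm n := (DD_pos n).trans_le (DD_le_mm n)

/-- There are enough groups. -/
theorem le_DD_mul_gg (n : ℕ) : n ≤ DD n * gg n := by
  calc n ≤ k0 n ^ 3 * Nat.log 2 (k0 n + 2) := k0_spec n
    _ ≤ kap n ^ 3 * rr n := Nat.mul_le_mul (Nat.pow_le_pow_left (Nat.le_add_right _ _) 3) le_rfl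
    _ = DD n * gg n := by unfold DD gg; ring

theorem group_lt {n x : ℕ} (hx : x < n) : x / gg n < DD n := by
  refine Nat.div_lt_of_lt_mul ?_
  rw [mul_comm]
  exact hx.trans_le (le_DD_mul_gg n)

theorem qq_spec (n : ℕ) : qq n < 2 * mm n + 1 ∧ mm n ≤ qq n ∧ (qq n).Prime := by
  obtain ⟨p, hp, h1, h2⟩ := Nat.exists_prime_lt_and_le_two_mul (mm n) (mm_pos n).ne'
  exact mu_lt ⟨p, by omega, h1.le, hp⟩

theorem qq_prime (n : ℕ) : (qq n).Prime := (qq_spec n).2.2

theorem mm_le_qq (n : ℕ) : mm n ≤ qq n := (qq_spec n).2.1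

theorem qq_le (n : ℕ) : qq n ≤ 2 * mm n := by have := (qq_spec n).1; omega

theorem two_pow_rr_le_qq (n : ℕ) : 2 ^ rr n ≤ qq n :=
  (two_pow_rr_le n).trans ((kap_le_mm n).trans (mm_le_qq n))

/-- More blocks than `2 κ + 1` (the big minimal transversals are bigger than the small ones). -/
theorem two_kap_lt_mm (n : ℕ) : 2 * kap n < mm n := by
  have h := two_le_kap n
  have e : mm n = kap n ^ 6 := by unfold mm DD; ring
  have h1 : kap n ^ 6 = kap n ^ 4 * kap n * kap n := by ring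
  have h2 : 2 ^ 4 ≤ kap n ^ 4 := Nat.pow_le_pow_left h 4
  have h3 : 2 ^ 4 * kap n ≤ kap n ^ 4 * kap n := Nat.mul_le_mul h2 le_rfl
  have h4 : 2 ^ 4 * kap n * 1 ≤ kap n ^ 4 * kap n * kap n := Nat.mul_le_mul h3 (by omega)
  rw [e, h1]
  omega

/-! ### Hash functions -/

theorem coef_lt (n a c : ℕ) : coef n a c < 2 ^ rr n := Nat.mod_lt _ (by positivity)

theorem coef_ext {n a b : ℕ} (ha : a < 2 ^ gg n) (hb : b < 2 ^ gg n)
    (h : ∀ c, c < kap n → coef n a c = coef n b c) : a = b := by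
  have e : 2 ^ gg n = (2 ^ rr n) ^ kap n := by
    rw [← pow_mul, gg, mul_comm]
  refine num_ext (2 ^ rr n) (kap n) (e ▸ ha) (e ▸ hb) ?_
  intro j hj
  have := h j hj
  unfold coef at this
  rw [← pow_mul, mul_comm (rr n) j]
  exact this

/-- Two different assignments have the same hash value for less than `κ` hash functions. -/
theorem hash_coll {n a b : ℕ} (ha : a < 2 ^ gg n) (hb : b < 2 ^ gg n) (hab : a ≠ b)
    (P : Finset ℕ) (hP : ∀ i ∈ P, i < mm n ∧ hash n i a = hash n i b) : P.card ≤ kap n - 1 := by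
  classical
  have hq := qq_prime n
  have : Fact (qq n).Prime := ⟨hq⟩
  have hqr := two_pow_rr_le_qq n
  set F : Polynomial (ZMod (qq n)) := ∑ c ∈ Finset.range (kap n),
    Polynomial.C (((coef n a c : ℕ) : ZMod (qq n)) - ((coef n b c : ℕ) : ZMod (qq n))) *
      Polynomial.X ^ c with hF
  obtain ⟨c0, hc0, hne⟩ : ∃ c, c < kap n ∧ coef n a c ≠ coef n b c := by
    by_contra hcon
    push Not at hcon
    exact hab (coef_ext ha hb hcon)
  have hcf : F.coeff c0 = ((coef n a c0 : ℕ) : ZMod (qq n)) - ((coef n b c0 : ℕ) : ZMod (qq n)) := by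
    rw [hF, Polynomial.finsetSum_coeff, Finset.sum_eq_single c0]
    · rw [Polynomial.coeff_C_mul_X_pow, if_pos rfl]
    · intro c _ hc
      rw [Polynomial.coeff_C_mul_X_pow, if_neg (Ne.symm hc)]
    · intro hc
      exact absurd (Finset.mem_range.2 hc0) hc
  have hF0 : F ≠ 0 := by
    intro h0
    rw [h0, Polynomial.coeff_zero] at hcf
    have h1 : ((coef n a c0 : ℕ) : ZMod (qq n)) = ((coef n b c0 : ℕ) : ZMod (qq n)) :=
      (sub_eq_zero.1 hcf.symm)
    rw [ZMod.natCast_eq_natCast_iff'] at h1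
    rw [Nat.mod_eq_of_lt ((coef_lt n a c0).trans_le hqr),
      Nat.mod_eq_of_lt ((coef_lt n b c0).trans_le hqr)] at h1
    exact hne h1
  have hdeg : F.natDegree ≤ kap n - 1 := by
    refine Polynomial.natDegree_sum_le_of_forall_le _ _ ?_
    intro c hc
    refine (Polynomial.natDegree_C_mul_X_pow_le _ _).trans ?_
    have := Finset.mem_range.1 hc
    omega
  have hev : ∀ i : ℕ, Polynomial.eval (i : ZMod (qq n)) F =
      ((∑ c ∈ Finset.range (kap n), coef n a c * i ^ c : ℕ) : ZMod (qq n)) -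
      ((∑ c ∈ Finset.range (kap n), coef n b c * i ^ c : ℕ) : ZMod (qq n)) := by
    intro i
    rw [hF, Polynomial.eval_finsetSum]
    push_cast
    rw [← Finset.sum_sub_distrib]
    refine Finset.sum_congr rfl ?_
    intro c _
    rw [Polynomial.eval_mul, Polynomial.eval_C, Polynomial.eval_pow, Polynomial.eval_X, sub_mul]
  have hinj : Set.InjOn (fun i : ℕ => (i : ZMod (qq n))) (P : Set ℕ) := by
    intro i hi j hj hij
    have h1 := (hP i hi).1
    have h2 := (hP j hj).1
    have h3 := mm_le_qq n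
    have h4 : ((i : ℕ) : ZMod (qq n)) = ((j : ℕ) : ZMod (qq n)) := hij
    rw [ZMod.natCast_eq_natCast_iff'] at h4
    rw [Nat.mod_eq_of_lt (h1.trans_le h3), Nat.mod_eq_of_lt (h2.trans_le h3)] at h4
    exact h4
  have hsub : P.image (fun i : ℕ => (i : ZMod (qq n))) ⊆ F.roots.toFinset := by
    intro z hz
    obtain ⟨i, hi, rfl⟩ := Finset.mem_image.1 hz
    rw [Multiset.mem_toFinset, Polynomial.mem_roots hF0]
    change Polynomial.eval _ F = 0
    rw [hev i, sub_eq_zero, ZMod.natCast_eq_natCast_iff']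
    exact (hP i hi).2
  calc P.card = (P.image (fun i : ℕ => (i : ZMod (qq n)))).card :=
        (Finset.card_image_of_injOn hinj).symm
    _ ≤ F.roots.toFinset.card := Finset.card_le_card hsub
    _ ≤ Multiset.card F.roots := Multiset.toFinset_card_le _
    _ ≤ F.natDegree := Polynomial.card_roots' F
    _ ≤ kap n - 1 := hdeg

/-! ### Blocks and vertices -/

theorem grp_lt (n p t : ℕ) : grp n p t < DD n := Nat.mod_lt _ (DD_pos n)

theorem part_lt (n v t : ℕ) : part n v t < 2 ^ gg n := Nat.mod_lt _ (by positivity)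

theorem hash_lt (n i a : ℕ) : hash n i a < qq n := Nat.mod_lt _ (qq_prime n).pos

theorem dig_lt (n h j : ℕ) : dig n h j < qq n := Nat.mod_lt _ (qq_prime n).pos

theorem exists_blk (n : ℕ) (d : ℕ → ℕ) (hd : ∀ t, t < 3 → d t < DD n) :
    ∃ p, p < mm n ∧ ∀ t, t < 3 → grp n p t = d t :=
  exists_num (DD n) 3 d hd

theorem blk_lt {n v : ℕ} (hv : v < nV n) : blk n v < mm n := by
  refine Nat.div_lt_of_lt_mul ?_
  rw [mul_comm]
  exact hv

theorem exists_vert (n p : ℕ) (a : ℕ → ℕ) (hp : p < mm n)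
    (ha : ∀ t, t < 3 → a t < 2 ^ gg n) :
    ∃ v, v < nV n ∧ blk n v = p ∧ ∀ t, t < 3 → part n v t = a t := by
  obtain ⟨w, hw, he⟩ := exists_num (2 ^ gg n) 3 a ha
  have e3 : (2 ^ gg n) ^ 3 = 2 ^ (3 * gg n) := by rw [← pow_mul, mul_comm]
  have hw' : w < 2 ^ (3 * gg n) := e3 ▸ hw
  have hb : blk n (w + 2 ^ (3 * gg n) * p) = p := by
    unfold blk
    rw [Nat.add_mul_div_left _ _ (by positivity), Nat.div_eq_of_lt hw', Nat.zero_add]
  refine ⟨w + 2 ^ (3 * gg n) * p, ?_, hb, ?_⟩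
  · have h1 : 2 ^ (3 * gg n) * (p + 1) ≤ 2 ^ (3 * gg n) * mm n := Nat.mul_le_mul le_rfl hp
    unfold nV
    calc w + 2 ^ (3 * gg n) * p < 2 ^ (3 * gg n) + 2 ^ (3 * gg n) * p := by omega
      _ = 2 ^ (3 * gg n) * (p + 1) := by ring
      _ ≤ 2 ^ (3 * gg n) * mm n := h1
      _ = mm n * 2 ^ (3 * gg n) := mul_comm _ _
  · intro t ht
    have := low_digit (2 ^ gg n) w p (t := t) (D := 3) (by positivity) ht
    unfold part
    rw [← e3, mul_comm t (gg n), pow_mul, this]
    exact he t ht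

theorem vert_ext {n u v : ℕ} (hb : blk n u = blk n v)
    (hp : ∀ t, t < 3 → part n u t = part n v t) : u = v := by
  have e3 : (2 ^ gg n) ^ 3 = 2 ^ (3 * gg n) := by rw [← pow_mul, mul_comm]
  have key : ∀ w t : ℕ, t < 3 →
      (w % (2 ^ gg n) ^ 3) / (2 ^ gg n) ^ t % 2 ^ gg n = part n w t := by
    intro w t ht
    have h1 := low_digit (2 ^ gg n) (w % (2 ^ gg n) ^ 3) (w / (2 ^ gg n) ^ 3) (t := t) (D := 3)
      (by positivity) ht
    rw [Nat.mod_add_div] at h1
    rw [← h1]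
    unfold part
    rw [mul_comm t (gg n), pow_mul]
  have h2 : u % (2 ^ gg n) ^ 3 = v % (2 ^ gg n) ^ 3 := by
    refine num_ext (2 ^ gg n) 3 (Nat.mod_lt _ (by positivity)) (Nat.mod_lt _ (by positivity)) ?_
    intro j hj
    rw [key u j hj, key v j hj]
    exact hp j hj
  have h3 : u / (2 ^ gg n) ^ 3 = v / (2 ^ gg n) ^ 3 := by
    unfold blk at hb
    rw [e3]
    exact hb
  rw [← Nat.div_add_mod u ((2 ^ gg n) ^ 3), ← Nat.div_add_mod v ((2 ^ gg n) ^ 3), h2, h3]

/-- Every vector of `D` hash values is coded by a number. -/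
theorem exists_dig (n : ℕ) (f : ℕ → ℕ) (hf : ∀ j, j < DD n → f j < qq n) :
    ∃ h, h < qq n ^ DD n ∧ ∀ j, j < DD n → dig n h j = f j :=
  exists_num (qq n) (DD n) f hf

/-- Every assignment of the variables of a group is coded by a number. -/
theorem exists_bits (n : ℕ) (f : ℕ → Bool) :
    ∃ a, a < 2 ^ gg n ∧ ∀ y, y < gg n → (a / 2 ^ y % 2 = 1 ↔ f y = true) := by
  obtain ⟨a, ha, he⟩ := exists_num 2 (gg n) (fun y => if f y = true then 1 else 0) (by
    intro j _
    split <;> norm_num)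
  refine ⟨a, ha, fun y hy => ?_⟩
  rw [he y hy]
  split <;> simp_all

/-- Every edge number is a pair `(i, h)`. -/
theorem exists_edge {n i h : ℕ} (hi : i < mm n) (hh : h < qq n ^ DD n) :
    ∃ e, e < nE n ∧ e / qq n ^ DD n = i ∧ e % qq n ^ DD n = h := by
  have hpos : 0 < qq n ^ DD n := pow_pos (qq_prime n).pos _
  refine ⟨h + qq n ^ DD n * i, ?_, ?_, ?_⟩
  · have h1 : qq n ^ DD n * (i + 1) ≤ qq n ^ DD n * mm n := Nat.mul_le_mul le_rfl hi
    unfold nE
    calc h + qq n ^ DD n * i < qq n ^ DD n + qq n ^ DD n * i := by omega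
      _ = qq n ^ DD n * (i + 1) := by ring
      _ ≤ qq n ^ DD n * mm n := h1
      _ = mm n * qq n ^ DD n := mul_comm _ _
  · rw [Nat.add_mul_div_left _ _ hpos, Nat.div_eq_of_lt hh, Nat.zero_add]
  · rw [Nat.add_mul_mod_self_left, Nat.mod_eq_of_lt hh]

theorem edge_lt {n e : ℕ} (he : e < nE n) :
    e / qq n ^ DD n < mm n ∧ e % qq n ^ DD n < qq n ^ DD n := by
  refine ⟨?_, Nat.mod_lt _ (pow_pos (qq_prime n).pos _)⟩
  refine Nat.div_lt_of_lt_mul ?_
  rw [mul_comm]
  exact he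

end Pool.Agent.Helper85.ETH
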